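import Pool.Agent.LE.StmtsF

/-!
# Polynomials against exponentials, with uniform exponents (POL)
-/

set_option autoImplicit false

noncomputable section

namespace Pool.Agent.LE.H54F

/-- `log x ≤ 2 √x`, in the form `x ^ m ≤ exp (2 m √x)` -/
theorem pow_le_exp_sqrt {x : ℝ} (hx : 0 ≤ x) (m : ℕ) : x ^ m ≤ Real.exp (2 * m * √x) := by
  have h1 : x ≤ Real.exp (2 * √x) := by
    have h2 : √x ≤ Real.exp √x := by
      have := Real.add_one_le_exp √x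
      linarith
    calc x = √x * √x := (Real.mul_self_sqrt hx).symm
      _ ≤ Real.exp √x * Real.exp √x :=
        mul_le_mul h2 h2 (Real.sqrt_nonneg x) (Real.exp_pos _).le
      _ = _ := by rw [← Real.exp_add]; ring_nf
  calc x ^ m ≤ (Real.exp (2 * √x)) ^ m := pow_le_pow_left₀ hx h1 m
    _ = _ := by rw [← Real.exp_nat_mul]; ring_nf

/-- powers of `X ≥ 2` absorb constants -/
theorem const_le {X : ℕ} (hX : 2 ≤ X) (m : ℕ) : m ≤ X ^ m := by
  calc m ≤ 2 ^ m := Nat.lt_two_pow_self.le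
    _ ≤ X ^ m := Nat.pow_le_pow_left hX m

/-- POL: for `L ≥ X ^ a` and `η ≥ 1 / X`, the exponential `exp (η L)` dominates
`exp (m X) (X L) ^ m`. -/
theorem pol (m : ℕ) : ∃ a : ℕ, ∀ (X L : ℕ) (η : ℝ), 2 ≤ X → X ^ a ≤ L → 1 ≤ X * η →
    Real.exp (m * X) * ((X : ℝ) * L) ^ m ≤ Real.exp (η * L) := by
  refine ⟨16 * (m + 1) ^ 2 + 4, fun X L η hX hL hη => ?_⟩
  set b : ℕ := 16 * (m + 1) ^ 2 with hb
  have hXr : (2 : ℝ) ≤ X := by exact_mod_cast hX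
  have hX0 : (0 : ℝ) < X := by linarith
  have hbX : (b : ℝ) ≤ (X : ℝ) ^ b := by exact_mod_cast const_le hX b
  have hLr : (X : ℝ) ^ b * (X : ℝ) ^ 4 ≤ L := by
    rw [← pow_add]
    exact_mod_cast hL
  have hL1 : (b : ℝ) * (X : ℝ) ^ 4 ≤ L :=
    (mul_le_mul_of_nonneg_right hbX (by positivity)).trans hLr
  have hL0 : (0 : ℝ) ≤ L := Nat.cast_nonneg L
  have hm0 : (0 : ℝ) ≤ m := Nat.cast_nonneg m
  have hbr : (b : ℝ) = 16 * ((m : ℝ) + 1) ^ 2 := by rw [hb]; push_cast; ring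
  rw [hbr] at hL1
  refine (mul_le_mul_of_nonneg_left (pow_le_exp_sqrt (x := (X : ℝ) * L) (by positivity) m)
    (Real.exp_pos _).le).trans ?_
  rw [← Real.exp_add, Real.exp_le_exp]
  have hηL : (L : ℝ) / X ≤ η * L := by
    rw [div_le_iff₀ hX0]
    nlinarith
  refine le_trans ?_ hηL
  -- `S = √(X L)`, `S² = X L`
  set S : ℝ := √((X : ℝ) * L) with hS
  have hS2 : S * S = X * L := Real.mul_self_sqrt (by positivity)
  have hS0 : 0 ≤ S := Real.sqrt_nonneg _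
  have hSbig : 4 * ((m : ℝ) + 1) * (X : ℝ) ^ 2 ≤ S := by
    rw [hS]
    apply Real.le_sqrt_of_sq_le
    have h1 : (4 * ((m : ℝ) + 1) * (X : ℝ) ^ 2) ^ 2 = 16 * ((m : ℝ) + 1) ^ 2 * (X : ℝ) ^ 4 := by
      ring
    rw [h1]
    nlinarith
  have hX4 : (X : ℝ) ^ 2 ≤ (X : ℝ) ^ 4 := by
    have h1 : (1 : ℝ) ≤ (X : ℝ) ^ 2 := one_le_pow₀ (by linarith)
    nlinarith [sq_nonneg ((X : ℝ) ^ 2)]
  rw [le_div_iff₀ hX0]
  have e1 : (m : ℝ) * X * X ≤ L / 2 := by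
    have h1 : (m : ℝ) ≤ 8 * ((m : ℝ) + 1) ^ 2 := by nlinarith
    have h2 : (m : ℝ) * X * X = m * (X : ℝ) ^ 2 := by ring
    have h3 : (m : ℝ) * (X : ℝ) ^ 2 ≤ 8 * ((m : ℝ) + 1) ^ 2 * (X : ℝ) ^ 4 :=
      mul_le_mul h1 hX4 (by positivity) (by positivity)
    linarith
  have e2 : 2 * (m : ℝ) * S * X ≤ L / 2 := by
    have h1 : 4 * (m : ℝ) * (X : ℝ) ^ 2 ≤ S := by
      refine le_trans ?_ hSbig
      have : (0 : ℝ) ≤ (X : ℝ) ^ 2 := by positivity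
      nlinarith
    have h2 : 4 * (m : ℝ) * (X : ℝ) ^ 2 * S ≤ S * S := mul_le_mul_of_nonneg_right h1 hS0
    rw [hS2] at h2
    have h3 : (X : ℝ) * (4 * (m : ℝ) * X * S) ≤ X * L := by nlinarith
    have h4 := le_of_mul_le_mul_left h3 hX0
    linarith
  calc ((m : ℝ) * X + 2 * m * S) * X = (m : ℝ) * X * X + 2 * m * S * X := by ring
    _ ≤ L := by linarith

/-- a smaller exponent is enough -/
theorem pow_le_of_le {X L a a' : ℕ} (hX : 2 ≤ X) (ha : a ≤ a') (h : X ^ a' ≤ L) : X ^ a ≤ L :=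
  (Nat.pow_le_pow_right (by omega) ha).trans h

/-- POL with a constant: `C exp (m X) (X L)^m ≤ exp (η L)` -/
theorem polC (C : ℝ) (m : ℕ) : ∃ a : ℕ, ∀ (X L : ℕ) (η : ℝ), 2 ≤ X → X ^ a ≤ L → 1 ≤ X * η →
    C * (Real.exp (m * X) * ((X : ℝ) * L) ^ m) ≤ Real.exp (η * L) := by
  obtain ⟨k, hk⟩ := exists_nat_ge C
  obtain ⟨a, ha⟩ := pol (m + k)
  refine ⟨a, fun X L η hX hL hη => le_trans ?_ (ha X L η hX hL hη)⟩
  have hXr : (2 : ℝ) ≤ X := by exact_mod_cast hX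
  have hL1 : (1 : ℝ) ≤ L := by
    have : 1 ≤ X ^ a := Nat.one_le_pow _ _ (by omega)
    exact_mod_cast this.trans hL
  have hXL : (2 : ℝ) ≤ (X : ℝ) * L := by nlinarith
  have h1 : C ≤ ((X : ℝ) * L) ^ k := by
    refine hk.trans ?_
    have h2 : (k : ℝ) ≤ 2 ^ k := by exact_mod_cast (Nat.lt_two_pow_self (n := k)).le
    exact h2.trans (pow_le_pow_left₀ (by norm_num) hXL k)
  have h3 : Real.exp (m * X) ≤ Real.exp (((m + k : ℕ) : ℝ) * X) := by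
    rw [Real.exp_le_exp]
    push_cast
    have : (0 : ℝ) ≤ k * X := by positivity
    nlinarith
  have h4 : 0 ≤ Real.exp (m * X) * ((X : ℝ) * L) ^ m := by positivity
  calc C * (Real.exp (m * X) * ((X : ℝ) * L) ^ m)
      ≤ ((X : ℝ) * L) ^ k * (Real.exp (m * X) * ((X : ℝ) * L) ^ m) :=
        mul_le_mul_of_nonneg_right h1 h4
    _ = Real.exp (m * X) * ((X : ℝ) * L) ^ (m + k) := by rw [pow_add]; ring
    _ ≤ _ := mul_le_mul_of_nonneg_right h3 (by positivity)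

/-- the same in the form used in the union bounds:
`C exp (m X) (X L)^m exp (- η L) ≤ p` for `η, p ≥ 1 / X` -/
theorem polP (C : ℝ) (m : ℕ) (hC : 0 ≤ C) : ∃ a : ℕ, ∀ (X L : ℕ) (η p : ℝ), 2 ≤ X →
    X ^ a ≤ L → 1 ≤ X * η → 1 ≤ X * p →
    C * (Real.exp (m * X) * ((X : ℝ) * L) ^ m) * Real.exp (-(η * L)) ≤ p := by
  obtain ⟨a, ha⟩ := polC C (m + 1)
  refine ⟨a, fun X L η p hX hL hη hp => ?_⟩
  have h1 := ha X L η hX hL hη
  have hXr : (2 : ℝ) ≤ X := by exact_mod_cast hX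
  have hL1 : (1 : ℝ) ≤ L := by
    have : 1 ≤ X ^ a := Nat.one_le_pow _ _ (by omega)
    exact_mod_cast this.trans hL
  have h2 : X * (C * (Real.exp (m * X) * ((X : ℝ) * L) ^ m)) ≤
      C * (Real.exp (((m + 1 : ℕ) : ℝ) * X) * ((X : ℝ) * L) ^ (m + 1)) := by
    have h3 : Real.exp (m * X) ≤ Real.exp (((m + 1 : ℕ) : ℝ) * X) := by
      rw [Real.exp_le_exp]
      push_cast
      nlinarith
    have h4 : (X : ℝ) * ((X : ℝ) * L) ^ m ≤ ((X : ℝ) * L) ^ (m + 1) := by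
      rw [pow_succ, mul_comm]
      apply mul_le_mul_of_nonneg_left _ (by positivity)
      nlinarith
    calc X * (C * (Real.exp (m * X) * ((X : ℝ) * L) ^ m))
        = C * (Real.exp (m * X) * (X * ((X : ℝ) * L) ^ m)) := by ring
      _ ≤ C * (Real.exp (((m + 1 : ℕ) : ℝ) * X) * ((X : ℝ) * L) ^ (m + 1)) := by
        apply mul_le_mul_of_nonneg_left _ hC
        exact mul_le_mul h3 h4 (by positivity) (Real.exp_pos _).le
  have h5 := h2.trans h1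
  have h6 : 0 < Real.exp (η * L) := Real.exp_pos _
  rw [Real.exp_neg, ← div_eq_mul_inv, div_le_iff₀ h6]
  have hX0 : (0 : ℝ) < X := by linarith
  have h7 : (X : ℝ) * (C * (Real.exp (m * X) * ((X : ℝ) * L) ^ m)) ≤
      X * (p * Real.exp (η * L)) := by
    refine h5.trans ?_
    nlinarith
  exact le_of_mul_le_mul_left h7 hX0

end Pool.Agent.LE.H54F
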